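import Pool.Agent.Helper874.TT.Asm2

/-!
Centrally symmetric tight tori lie in a four dimensional linear subspace.

The map `f` from the torus `Circle × Circle` to Euclidean `N`-space is a topological immersion
(continuous and locally injective) such that the preimage of every closed half-space is connected
(or empty), which is the first of the two conditions of tightness.  If the image is centrally
symmetric about `c` then it lies in `c + W` for a linear subspace `W` of dimension at most four.
-/

namespace Pool.Agent.Results.MP_22bcea_gt.SymmetricTightTori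

open Set Topology

theorem result {N : ℕ} (f : Circle × Circle → EuclideanSpace ℝ (Fin N))
    (hf : Continuous f)
    (himm : ∀ p, ∃ U ∈ 𝓝 p, InjOn f U)
    (htight : ∀ (u : EuclideanSpace ℝ (Fin N)) (t : ℝ), u ≠ 0 →
      IsPreconnected (f ⁻¹' {x | t ≤ inner ℝ u x}))
    (c : EuclideanSpace ℝ (Fin N))
    (hsym : ∀ x ∈ range f, (2 : ℝ) • c - x ∈ range f) :
    ∃ W : Submodule ℝ (EuclideanSpace ℝ (Fin N)),
      Module.finrank ℝ W ≤ 4 ∧ ∀ x ∈ range f, x - c ∈ W := by
  classical
  let e : Helper874.TT.T ≃ₜ Circle × Circle :=
    (AddCircle.homeomorphCircle one_ne_zero).prodCongr (AddCircle.homeomorphCircle one_ne_zero)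
  set W : Submodule ℝ (EuclideanSpace ℝ (Fin N)) :=
    Submodule.span ℝ (range fun p => f p - c) with hW
  have hmem : ∀ p, f p - c ∈ W := fun p => Submodule.subset_span ⟨p, rfl⟩
  refine ⟨W, ?_, ?_⟩
  swap
  · rintro _ ⟨p, rfl⟩
    exact hmem p
  let F : Helper874.TT.T → W := fun p => ⟨f (e p) - c, hmem (e p)⟩
  have hFc : Continuous F := ((hf.comp e.continuous).sub continuous_const).subtype_mk _
  have hinner : ∀ (m : W) (p : Helper874.TT.T),
      inner ℝ m (F p) = inner ℝ (m : EuclideanSpace ℝ (Fin N)) (f (e p)) -
        inner ℝ (m : EuclideanSpace ℝ (Fin N)) c := by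
    intro m p
    rw [Submodule.coe_inner]
    exact inner_sub_right _ _ _
  refine Helper874.TT.core_dim hFc ?_ ?_ ?_ ?_
  · intro p
    obtain ⟨U, hU, hinj⟩ := himm (e p)
    refine ⟨e ⁻¹' U, e.continuous.continuousAt hU, ?_⟩
    intro x hx y hy hxy
    have h1 : f (e x) - c = f (e y) - c := congrArg Subtype.val hxy
    exact e.injective (hinj hx hy (sub_left_inj.1 h1))
  · intro m t
    by_cases hm : m = 0
    · subst hm
      simp only [inner_zero_left]
      by_cases ht : t ≤ 0
      · simp only [ht, ofPred_true]
        exact isPreconnected_univ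
      · simp only [ht, ofPred_false]
        exact isPreconnected_empty
    · have hm' : (m : EuclideanSpace ℝ (Fin N)) ≠ 0 := fun h => hm (Subtype.ext h)
      have h1 := htight m (t + inner ℝ (m : EuclideanSpace ℝ (Fin N)) c) hm'
      have h2 : {x | t ≤ inner ℝ m (F x)} = e.symm '' (f ⁻¹' {x | t +
          inner ℝ (m : EuclideanSpace ℝ (Fin N)) c ≤
            inner ℝ (m : EuclideanSpace ℝ (Fin N)) x}) := by
        ext x
        constructor
        · intro hx
          refine ⟨e x, ?_, e.symm_apply_apply x⟩
          have hx' : t ≤ inner ℝ m (F x) := hx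
          rw [hinner] at hx'
          show t + _ ≤ inner ℝ (m : EuclideanSpace ℝ (Fin N)) (f (e x))
          linarith
        · rintro ⟨y, hy, rfl⟩
          have hy' : t + inner ℝ (m : EuclideanSpace ℝ (Fin N)) c ≤
            inner ℝ (m : EuclideanSpace ℝ (Fin N)) (f y) := hy
          show t ≤ inner ℝ m (F (e.symm y))
          rw [hinner, e.apply_symm_apply]
          linarith
      rw [h2]
      exact h1.image _ e.symm.continuous.continuousOn
  · intro x
    obtain ⟨y, hy⟩ := hsym (f (e x)) ⟨e x, rfl⟩
    refine ⟨e.symm y, Subtype.ext ?_⟩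
    show f (e (e.symm y)) - c = -(f (e x) - c)
    rw [e.apply_symm_apply, hy, two_smul]
    abel
  · intro l hl
    by_contra hcon
    push Not at hcon
    have h1 : W ≤ (Submodule.span ℝ {(l : EuclideanSpace ℝ (Fin N))})ᗮ := by
      refine Submodule.span_le.2 ?_
      rintro _ ⟨p, rfl⟩
      rw [SetLike.mem_coe, Submodule.mem_orthogonal_singleton_iff_inner_right]
      have := hcon (e.symm p)
      rw [hinner, e.apply_symm_apply] at this
      rw [inner_sub_right]
      exact this
    have h2 := h1 l.2
    rw [Submodule.mem_orthogonal_singleton_iff_inner_right] at h2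
    exact hl (Subtype.ext (inner_self_eq_zero.1 h2))

end Pool.Agent.Results.MP_22bcea_gt.SymmetricTightTori
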